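import Pool.Agent.Q5.SG.Stm

/-!
Project SG: a bad layer and the element `x` of the group ring.
-/

set_option autoImplicit false

namespace Pool.Agent.Q224.SG

open NumberField Module Polynomial Pool.Agent.Y18.LC Pool.Agent.Q5.SG

section

variable {p : ℕ} [Fact p.Prime] {K H : Type} [Field K] [NumberField K] [Field H] [NumberField H]
  [Algebra K H]

theorem smul_CU (S : Set (K →+* ℂ_[p])) (g : H ≃ₐ[K] H) {n : ℕ} {u : Hˣ} (hu : u ∈ CU S H n) :
    g • u ∈ CU S H n := by
  refine ⟨smul_EU g hu.1, fun σ hσ => ?_⟩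
  have h0 : (σ.comp g.toRingEquiv.toRingHom).comp (algebraMap K H) = σ.comp (algebraMap K H) := by
    ext x
    simp
  have h1 := hu.2 (σ.comp g.toRingEquiv.toRingHom) (by rw [h0]; exact hσ)
  exact h1

theorem smul_CV (S : Set (K →+* ℂ_[p])) (g : H ≃ₐ[K] H) {n : ℕ} {u : Hˣ} (hu : u ∈ CV S H n) :
    g • u ∈ CV S H n := by
  obtain ⟨w, hw, rfl⟩ := hu
  refine ⟨g • w, smul_CU S g hw, ?_⟩
  rw [powMonoidHom_apply, powMonoidHom_apply, smul_pow']

/-- the action of `g` -/
noncomputable def act (S : Set (K →+* ℂ_[p])) (g : H ≃ₐ[K] H) : CU S H 1 →* CU S H 1 where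
  toFun u := ⟨g • (u : Hˣ), smul_CU S g u.2⟩
  map_one' := Subtype.ext (smul_one g)
  map_mul' a b := Subtype.ext (smul_mul' g _ _)

/-- the action of `g`, additively -/
noncomputable def TT (S : Set (K →+* ℂ_[p])) (g : H ≃ₐ[K] H) :
    Module.End ℤ (Additive (CU S H 1)) := (MonoidHom.toAdditive (act S g)).toIntLinearMap

/-- the value of an element, additively -/
noncomputable def vl (S : Set (K →+* ℂ_[p])) : Additive (CU S H 1) →+ Additive Hˣ :=
  MonoidHom.toAdditive (CU S H 1).subtype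

theorem vl_inj (S : Set (K →+* ℂ_[p])) : Function.Injective (vl (H := H) S) := fun a b h =>
  Additive.toMul.injective (Subtype.ext (Additive.ofMul.injective h))

theorem vl_TT (S : Set (K →+* ℂ_[p])) (g : H ≃ₐ[K] H) (a : Additive (CU S H 1)) :
    vl S (TT S g a) = Additive.ofMul (g • (vl S a).toMul) := rfl

theorem vl_TT_pow (S : Set (K →+* ℂ_[p])) (g : H ≃ₐ[K] H) (a : Additive (CU S H 1)) (i : ℕ) :
    vl S ((TT S g ^ i) a) = Additive.ofMul (g ^ i • (vl S a).toMul) := by
  induction i with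
  | zero => simp
  | succ i ih =>
    rw [pow_succ', Module.End.mul_apply, vl_TT, ih, toMul_ofMul, smul_smul, ← pow_succ']

end

theorem bl_main (hBD : S_BD) : S_BL := by
  classical
  intro p _ hp2 K H _ _ _ _ _ _ hun S g hg m n hfin x hx
  have hp : p.Prime := Fact.out
  have hord : orderOf g = p ^ m := by
    rw [orderOf_eq_card_of_forall_mem_zpowers hg, IsGalois.card_aut_eq_finrank, hfin]
  have hinj : Set.InjOn (fun i : ℕ => g ^ i) (Finset.range (p ^ m)) := by
    intro a ha b hb hab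
    rw [Finset.coe_range, Set.mem_Iio] at ha hb
    exact pow_injOn_Iio_orderOf (by rw [hord]; exact ha) (by rw [hord]; exact hb) hab
  have himg : Finset.image (fun i : ℕ => g ^ i) (Finset.range (p ^ m)) = Finset.univ := by
    rw [← hord]
    exact IsCyclic.image_range_orderOf hg
  set f : ℤ[X] := ∑ i ∈ Finset.range (p ^ m), C (x (g ^ i)) * X ^ i with hf
  refine ⟨f, ?_, fun j hj1 hjm hbad => ?_⟩
  · rw [hf, eval_finset_sum, ← himg, Finset.sum_image hinj]
    refine Finset.sum_congr rfl fun i _ => ?_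
    simp
  · obtain ⟨z, hz, hzg, hzn, hzw⟩ := hbad
    have hz1 : z ∈ CU S H 1 := ⟨hz.1, hz.2.mono (by omega)⟩
    obtain ⟨w, hw, hwz⟩ := hx z hz
    have hwz' : w ^ p ^ n = ∏ h : H ≃ₐ[K] H, (h • z) ^ x h := hwz
    refine hBD p j n hj1 (Additive (CU S H 1)) (TT S g) ?_ (Additive.ofMul ⟨z, hz1⟩)
      (Additive.ofMul ⟨w, hw⟩) f ?_ ?_ ?_
    · intro a ha
      have h1 := congrArg (fun t : Additive (CU S H 1) => ((Additive.toMul t : CU S H 1) : Hˣ)) ha
      have h2 : ((Additive.toMul a : CU S H 1) : Hˣ) ^ p = 1 := by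
        simpa using h1
      have h3 := eq_one_of_pow hp hp2 hun 1 (Additive.toMul a : CU S H 1).2.1 (by
        rw [pow_one]
        exact h2)
      apply Additive.toMul.injective
      exact Subtype.ext h3
    · obtain ⟨i, rfl⟩ : ∃ i, j = i + 1 := ⟨j - 1, by omega⟩
      apply vl_inj S
      rw [cyclotomic_prime_pow_eq_geom_sum hp, map_sum, LinearMap.sum_apply, map_sum, map_zero]
      have e1 : ∀ l ∈ Finset.range p, (vl S) ((aeval (TT S g)) (((X : ℤ[X]) ^ p ^ i) ^ l)
          (Additive.ofMul (⟨z, hz1⟩ : CU S H 1))) = Additive.ofMul (g ^ (l * p ^ i) • z) := by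
        intro l _
        rw [← pow_mul, map_pow, aeval_X, vl_TT_pow, mul_comm (p ^ i) l]
        rfl
      rw [Finset.sum_congr rfl e1, ← ofMul_prod]
      rw [Nat.add_sub_cancel] at hzn
      rw [hzn, ofMul_one]
    · apply vl_inj S
      rw [hf, map_sum, LinearMap.sum_apply, map_sum]
      have e1 : ∀ i ∈ Finset.range (p ^ m), (vl S) ((aeval (TT S g)) (C (x (g ^ i)) * (X : ℤ[X]) ^ i)
          (Additive.ofMul (⟨z, hz1⟩ : CU S H 1))) =
          Additive.ofMul ((g ^ i • z) ^ x (g ^ i)) := by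
        intro i _
        rw [map_mul, map_pow, aeval_X, aeval_C, Module.End.mul_apply,
          Module.algebraMap_end_apply, map_zsmul, vl_TT_pow, ofMul_zpow]
        rfl
      rw [Finset.sum_congr rfl e1, ← ofMul_prod]
      have e2 : ∏ i ∈ Finset.range (p ^ m), (g ^ i • z) ^ x (g ^ i) = w ^ p ^ n := by
        rw [hwz', ← himg, Finset.prod_image hinj]
      rw [e2, map_zsmul]
      have e3 : (p : ℤ) ^ n = ((p ^ n : ℕ) : ℤ) := by push_cast; rfl
      rw [e3, natCast_zsmul, ofMul_pow]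
      rfl
    · intro a ha
      refine hzw ((Additive.toMul a : CU S H 1) : Hˣ) (Additive.toMul a : CU S H 1).2 ?_
      have h1 := congrArg (fun t : Additive (CU S H 1) => ((Additive.toMul t : CU S H 1) : Hˣ)) ha
      simpa using h1.symm

theorem j_bl : J_BL := bl_main

end Pool.Agent.Q224.SG
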