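import Pool.Agent.Q5.SG.Stm
import Pool.Agent.Y44.LC.ANN
import Pool.Agent.Q224.SG.BL

/-!
Project SG: the number of the bad layers is bounded.
-/

set_option autoImplicit false

namespace Pool.Agent.Q224.SG

open NumberField Module Polynomial Pool.Agent.Y18.LC Pool.Agent.Q5.SG

theorem co_main (hPW : S_PW) (hFN : S_FN) (hBL : S_BL) (hCN : S_CN) : S_CO := by
  classical
  intro p _ hp2 B
  have hp : p.Prime := Fact.out
  obtain ⟨W, hW⟩ := Pool.Agent.Y44.LC.ann p B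
  refine ⟨W, fun K _ _ S n₀ m => ⟨max n₀ (m * p ^ m), le_max_left _ _, ?_⟩⟩
  intro H _ _ _ _ hun ⟨R, hR, hR2⟩ g hg hfin
  have hnm : m * p ^ m ≤ max n₀ (m * p ^ m) := le_max_right _ _
  generalize max n₀ (m * p ^ m) = n at hR2 hnm ⊢
  have hcomm : ∀ a b : H ≃ₐ[K] H, a * b = b * a := by
    intro a b
    obtain ⟨i, rfl⟩ := Subgroup.mem_zpowers_iff.1 (hg a)
    obtain ⟨j, rfl⟩ := Subgroup.mem_zpowers_iff.1 (hg b)
    rw [← zpow_add, ← zpow_add, add_comm]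
  have hcard : Nat.card (H ≃ₐ[K] H) = p ^ m := by
    rw [IsGalois.card_aut_eq_finrank, hfin]
  letI : CommGroup (H ≃ₐ[K] H) := { (inferInstance : Group (H ≃ₐ[K] H)) with mul_comm := hcomm }
  have hPG : IsPGroup p (H ≃ₐ[K] H) := IsPGroup.of_card hcard
  have hUmono : ∀ u ∈ CU S H (n + 1), u ∈ CU S H 1 := fun u hu => ⟨hu.1, hu.2.mono (by omega)⟩
  have hVU : CV S H n ≤ CU S H (n + 1) := by
    rintro _ ⟨w, hw, rfl⟩
    rw [powMonoidHom_apply]
    refine ⟨pow_mem hw.1 _, fun σ hσ => ?_⟩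
    have h1 := hw.2 σ hσ
    rw [pow_one] at h1
    rw [Units.val_pow_eq_pow_val, map_pow, hPW p hp2 _ h1 n, pow_succ]
    exact mul_le_mul_of_nonneg_left h1 (by positivity)
  obtain ⟨R', hR'⟩ := hFN p K H hun S n
  obtain ⟨x, hx, w, hw, hxw⟩ := hW (H ≃ₐ[K] H) hPG Hˣ (CU S H (n + 1)) (CV S H n) hVU
    (fun g u hu => smul_CU S g hu) (fun g u hu => smul_CV S g hu)
    ⟨n, fun u hu => ⟨u, hUmono u hu, rfl⟩⟩ ⟨R', fun u hu => hR' u (hUmono u hu)⟩ ⟨R, hR, hR2⟩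
  obtain ⟨f, hf1, hf⟩ := hBL p hp2 K H hun S g hg m n hfin x hx
  have hset : {j : ℕ | 1 ≤ j ∧ j ≤ m ∧ Bad S g n j} =
      (((Finset.Icc 1 m).filter fun j => Bad S g n j : Finset ℕ) : Set ℕ) := by
    ext j
    simp [and_assoc]
  rw [hset, Set.ncard_coe_finset]
  set J := (Finset.Icc 1 m).filter fun j => Bad S g n j with hJ
  have hdvd := hCN p J m f (fun j hj => (Finset.mem_Icc.1 (Finset.mem_filter.1 hj).1).1)
    ((Finset.card_filter_le _ _).trans (by simp)) (by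
      intro j hj
      obtain ⟨hj1, hj2⟩ := Finset.mem_filter.1 hj
      rw [Finset.mem_Icc] at hj1
      obtain ⟨h, k, hhk⟩ := hf j hj1.1 hj1.2 hj2
      have h1 : m ≤ n / Nat.totient (p ^ j) := by
        rw [Nat.le_div_iff_mul_le (Nat.totient_pos.2 (pow_pos hp.pos _))]
        refine le_trans (Nat.mul_le_mul_left m ?_) hnm
        exact (Nat.totient_le _).trans (Nat.pow_le_pow_right hp.pos hj1.2)
      refine ⟨C ((p : ℤ) ^ (n / Nat.totient (p ^ j) - m)) * h, k, ?_⟩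
      rw [← mul_assoc, ← C_mul, ← pow_add, Nat.add_sub_cancel' h1]
      exact hhk)
  rw [hf1, hxw] at hdvd
  refine le_trans ?_ hw
  have h2 : p ^ J.card ∣ p ^ w := by exact_mod_cast hdvd
  exact (Nat.pow_dvd_pow_iff_le_right hp.one_lt).1 h2

theorem j_co : J_CO := fun hPW _ hFN hBL hCN => co_main hPW hFN hBL hCN

end Pool.Agent.Q224.SG
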